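import Pool.Agent.Run7.h163.FN

/-!
# MP_9c80fa_an: there is no uniform index for pseudo-cyclic multipliers

For every `d ≥ 3` and every `N` there are `n > N` and a multiplier `f` of the Drury-Arveson space
`H²_d` with `f ∈ 𝒞_n(H²_d)` and `f ∉ 𝒞_N(H²_d)`.  This is the negated form of Q1.
-/

namespace Pool.Agent.Results.MP_9c80fa_an.NoUniformIndex

open Pool.Agent.K4H52.DA

/-- The class `𝒞_n(H²_d)`: the multipliers `φ ≠ 0` of `H²_d` with `[φ^n] = [φ^(n+1)]`. -/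
def PC (d n : ℕ) : Set (Ball d → ℂ) :=
  {φ | φ ∈ Mult d ∧ φ ≠ 0 ∧ Cyc (φ ^ n) = Cyc (φ ^ (n + 1))}

theorem result (d : ℕ) (hd : 3 ≤ d) (N : ℕ) :
    ∃ n : ℕ, N < n ∧ ∃ f : Ball d → ℂ, f ∈ PC d n ∧ f ∉ PC d N :=
  Run7.h163.main_fn hd N

end Pool.Agent.Results.MP_9c80fa_an.NoUniformIndex
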